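import Pool.Agent.N822.OG.Stm

/-!
# OG/CLS: classification of the vertices by their neighbours in a complete tripartite subgraph
-/

set_option autoImplicit false
set_option linter.all false

namespace Pool.Agent.N769.OG

open Pool.Agent.N822.OG Finset

/-- **CLS** -/
theorem cls : S_CLS := by
  classical
  intro V _ G T M t ht htM hdeg A hA hadj hlow
  -- numbers of neighbours
  let d : Fin 3 → V → ℕ := fun i x => ((A i).filter (fun y => G.Adj x y)).card
  have hd : ∀ i x, {y | y ∈ A i ∧ G.Adj x y}.ncard = d i x := by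
    intro i x
    have : {y | y ∈ A i ∧ G.Adj x y} = (((A i).filter (fun y => G.Adj x y) : Finset V) : Set V) := by
      ext y; simp
    rw [this, Set.ncard_coe_finset]
  have hdT : ∀ i x, d i x ≤ T := fun i x => (card_filter_le _ _).trans (hA i).le
  have hdisj : ∀ i j, i ≠ j → Disjoint (A i) (A j) := by
    intro i j hij
    rw [disjoint_left]
    intro x hi hj
    exact G.irrefl (hadj i j hij x hi x hj)
  let K : Finset V := univ.biUnion A
  have hK : K.card = 3 * T := by
    rw [card_biUnion (fun i _ j _ hij => hdisj i j hij), sum_congr rfl fun i _ => hA i]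
    simp
  have hKn : K.card ≤ Fintype.card V := card_le_univ K
  have hKf : ∀ x, (K.filter (fun y => G.Adj x y)).card = ∑ i, d i x := by
    intro x
    rw [filter_biUnion, card_biUnion]
    intro i _ j _ hij
    exact (hdisj i j hij).mono (filter_subset _ _) (filter_subset _ _)
  -- double counting
  have hdc : ∑ x ∈ Kᶜ, ∑ i, d i x = ∑ y ∈ K, (Kᶜ.filter (fun x => G.Adj x y)).card := by
    refine Eq.trans ?_ (sum_card_bipartiteAbove_eq_sum_card_bipartiteBelow (s := Kᶜ) (t := K)
      (fun x y => G.Adj x y))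
    refine sum_congr rfl fun x _ => ?_
    rw [← hKf]
    rfl
  have hlowy : ∀ y, 2 * Fintype.card V / 3 ≤ (Kᶜ.filter (fun x => G.Adj x y)).card + 3 * T := by
    intro y
    have h1 := hdeg y
    have h2 : (G.neighborSet y).ncard = (univ.filter (fun x => G.Adj x y)).card := by
      have : G.neighborSet y = ((univ.filter (fun x => G.Adj x y) : Finset V) : Set V) := by
        ext x; simp [G.adj_comm]
      rw [this, Set.ncard_coe_finset]
    have h3 : (univ.filter (fun x => G.Adj x y)).card ≤
        (Kᶜ.filter (fun x => G.Adj x y)).card + K.card := by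
      refine (card_le_card ?_).trans (card_union_le _ _)
      intro x hx
      rw [mem_union, mem_filter, mem_compl]
      by_cases h : x ∈ K
      · exact Or.inr h
      · exact Or.inl ⟨h, (mem_filter.1 hx).2⟩
    omega
  have hsumlow : K.card * (2 * Fintype.card V / 3) ≤
      ∑ x ∈ Kᶜ, ∑ i, d i x + K.card * (3 * T) := by
    rw [hdc]
    have h1 := sum_le_sum (s := K) fun y _ => hlowy y
    rw [sum_const, sum_add_distrib, sum_const, smul_eq_mul, smul_eq_mul] at h1
    exact h1
  -- the exceptional set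
  let Good : V → Prop := fun x => ∃ i, d i x < t ∧ ∀ j, j ≠ i → T - M ≤ d j x
  let R1 : Finset V := Kᶜ.filter (fun x => ¬ Good x)
  have hup : ∀ x, (∑ i, d i x) + 1 + (if ¬ Good x then M + 1 else 0) ≤ 2 * T + t := by
    intro x
    obtain ⟨i, hi⟩ := hlow x
    rw [hd] at hi
    have h0 := hdT 0 x
    have h1 := hdT 1 x
    have h2 := hdT 2 x
    rw [Fin.sum_univ_three]
    by_cases hg : Good x
    · rw [if_neg (not_not.2 hg)]
      fin_cases i <;> simp at hi <;> omega
    · rw [if_pos hg]
      have hg' : ∃ j, j ≠ i ∧ d j x < T - M := by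
        by_contra hcon
        push Not at hcon
        exact hg ⟨i, hi, hcon⟩
      obtain ⟨j, hji, hj⟩ := hg'
      fin_cases i <;> fin_cases j <;> simp at hji hi hj <;> omega
  have hsumup : ∑ x ∈ Kᶜ, ∑ i, d i x + Kᶜ.card + R1.card * (M + 1) ≤ Kᶜ.card * (2 * T + t) := by
    have h1 := sum_le_sum (s := Kᶜ) fun x _ => hup x
    rw [sum_const, sum_add_distrib, sum_add_distrib, sum_const, ← sum_filter, sum_const,
      smul_eq_mul, smul_eq_mul, smul_eq_mul, mul_one] at h1
    exact h1
  have hKc : Kᶜ.card = Fintype.card V - 3 * T := by rw [card_compl, hK]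
  refine ⟨K ∪ R1, ?_, ?_⟩
  · intro x hx
    rw [mem_union, not_or] at hx
    have hxK : x ∈ Kᶜ := mem_compl.2 hx.1
    have hg : Good x := by
      by_contra hcon
      exact hx.2 (mem_filter.2 ⟨hxK, hcon⟩)
    obtain ⟨i, h1, h2⟩ := hg
    have hnA : ∀ j, x ∉ A j := fun j hj => hx.1 (mem_biUnion.2 ⟨j, mem_univ _, hj⟩)
    refine ⟨i, hnA 0, hnA 1, hnA 2, by rw [hd]; exact h1, fun j hj => by rw [hd]; exact h2 j hj⟩
  · have h1 : (K ∪ R1).card ≤ 3 * T + R1.card := by
      rw [← hK]; exact card_union_le _ _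
    rw [hK] at hsumlow hKn
    rw [hKc] at hsumup
    obtain ⟨m, hm⟩ := Nat.exists_eq_add_of_le hKn
    rw [hm, Nat.add_sub_cancel_left] at hsumup
    have h2 : R1.card * (M + 1) ≤ Fintype.card V * t + 5 * T ^ 2 := by
      have h3 : 2 * Fintype.card V ≤ 3 * (2 * Fintype.card V / 3) + 2 := by omega
      set q := 2 * Fintype.card V / 3 with hq
      set S := ∑ x ∈ Kᶜ, ∑ i, d i x with hS
      rw [hm] at h3 ⊢
      have h4 : T * (2 * (3 * T + m)) ≤ T * (3 * q + 2) := Nat.mul_le_mul_left _ h3
      have hTT : T ≤ T ^ 2 := by nlinarith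
      nlinarith
    calc (K ∪ R1).card * (M + 1) ≤ (3 * T + R1.card) * (M + 1) := Nat.mul_le_mul_right _ h1
      _ = R1.card * (M + 1) + 3 * T * (M + 1) := by ring
      _ ≤ _ := by omega

end Pool.Agent.N769.OG
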