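import Pool.Agent.N822.OG.Stm

/-!
# OG/CNT: the number of orientations containing given arcs; the number of edges of `Gst n`
-/

set_option autoImplicit false
set_option linter.all false

namespace Pool.Agent.N769.OG

open Pool.Agent.N822.OG

/-- **CNT** -/
theorem cnt : S_CNT := by
  classical
  intro V _ G P hP hP'
  let F : Set (Sym2 V) := (fun p : V × V => s(p.1, p.2)) '' (P : Set (V × V))
  have hFG : F ⊆ G.edgeSet := by
    rintro e ⟨p, hp, rfl⟩
    exact (SimpleGraph.mem_edgeSet G).2 (hP p hp)
  have hinj : Set.InjOn (fun p : V × V => s(p.1, p.2)) (P : Set (V × V)) := by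
    rintro ⟨a, b⟩ hp ⟨c, d⟩ hq h
    rcases Sym2.eq_iff.1 h with ⟨h1, h2⟩ | ⟨h1, h2⟩
    · exact Prod.ext h1 h2
    · exfalso
      simp only at h1 h2
      subst h1
      subst h2
      exact hP' _ hp hq
  have hF : F.ncard = P.card := by
    rw [Set.ncard_image_of_injOn hinj, Set.ncard_coe_finset]
  have hle : F.ncard ≤ G.edgeSet.ncard := Set.ncard_le_ncard hFG (Set.toFinite _)
  refine ⟨hF ▸ hle, ?_⟩
  let Φ : {O : V → V → Prop // IsOri G O ∧ ∀ e ∈ P, O e.1 e.2} →
      (↥(G.edgeSet \ F) → Prop) := fun O e => O.1 (Quot.out e.1).1 (Quot.out e.1).2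
  have hout : ∀ e : Sym2 V, s((Quot.out e).1, (Quot.out e).2) = e := fun e => Quot.out_eq e
  -- forced edges
  have hforce : ∀ (O : V → V → Prop), IsOri G O → (∀ e ∈ P, O e.1 e.2) → ∀ u v, s(u, v) ∈ F →
      (O u v ↔ (u, v) ∈ P) := by
    intro O hO hOP u v huv
    refine ⟨fun h => ?_, fun h => hOP _ h⟩
    obtain ⟨⟨a, b⟩, hp, hab⟩ := huv
    rcases Sym2.eq_iff.1 hab with ⟨h1, h2⟩ | ⟨h1, h2⟩
    · simp only at h1 h2
      subst h1
      subst h2
      exact hp
    · exfalso
      simp only at h1 h2
      subst h1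
      subst h2
      have h3 := hOP _ hp
      rcases hO.2 _ _ (hP _ hp) with h4 | h4
      · exact h4.2 h
      · exact h4.2 h3
  have hbij : Function.Bijective Φ := by
    constructor
    · rintro ⟨O, hO, hOP⟩ ⟨O', hO', hOP'⟩ h
      apply Subtype.ext
      funext u v
      apply propext
      change O u v ↔ O' u v
      by_cases hadj : G.Adj u v
      · by_cases hF' : s(u, v) ∈ F
        · rw [hforce O hO hOP u v hF', hforce O' hO' hOP' u v hF']
        · have h1 := congrFun h ⟨s(u, v), (SimpleGraph.mem_edgeSet G).2 hadj, hF'⟩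
          have h1' : O (Quot.out s(u, v)).1 (Quot.out s(u, v)).2 ↔
            O' (Quot.out s(u, v)).1 (Quot.out s(u, v)).2 := iff_of_eq h1
          have e1 := hO.2 u v hadj
          have e2 := hO'.2 u v hadj
          rcases Sym2.eq_iff.1 (hout s(u, v)) with ⟨h2, h3⟩ | ⟨h2, h3⟩
          · rw [h2, h3] at h1'
            exact h1'
          · rw [h2, h3] at h1'
            tauto
      · exact ⟨fun h => absurd (hO.1 _ _ h) hadj, fun h => absurd (hO'.1 _ _ h) hadj⟩
    · intro g
      let O : V → V → Prop := fun u v => ∃ h : G.Adj u v,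
        (s(u, v) ∈ F → (u, v) ∈ P) ∧ (∀ h' : s(u, v) ∉ F,
          ((Quot.out s(u, v)) = (u, v) ↔
            g ⟨s(u, v), (SimpleGraph.mem_edgeSet G).2 h, h'⟩))
      have hsw : ∀ u v : V, s(v, u) = s(u, v) := fun u v => Sym2.eq_swap
      have hOri : IsOri G O := by
        refine ⟨fun u v h => h.1, fun u v hadj => ?_⟩
        have hne : u ≠ v := hadj.ne
        by_cases hF' : s(u, v) ∈ F
        · obtain ⟨⟨a, b⟩, hp, hab⟩ := id hF'
          have hF2 : s(v, u) ∈ F := by rw [hsw]; exact hF'
          rcases Sym2.eq_iff.1 hab with ⟨h1, h2⟩ | ⟨h1, h2⟩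
          · simp only at h1 h2
            subst h1
            subst h2
            exact Or.inl ⟨⟨hadj, fun _ => hp, fun h => absurd hF' h⟩,
              fun h => hP' _ hp (h.2.1 hF2)⟩
          · simp only at h1 h2
            subst h1
            subst h2
            exact Or.inr ⟨⟨hadj.symm, fun _ => hp, fun h => absurd hF2 h⟩,
              fun h => hP' _ hp (h.2.1 hF')⟩
        · have hF2 : s(v, u) ∉ F := by rw [hsw]; exact hF'
          have hgg : g ⟨s(v, u), (SimpleGraph.mem_edgeSet G).2 hadj.symm, hF2⟩ ↔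
              g ⟨s(u, v), (SimpleGraph.mem_edgeSet G).2 hadj, hF'⟩ := by
            have : (⟨s(v, u), (SimpleGraph.mem_edgeSet G).2 hadj.symm, hF2⟩ :
                ↥(G.edgeSet \ F)) = ⟨s(u, v), (SimpleGraph.mem_edgeSet G).2 hadj, hF'⟩ :=
              Subtype.ext (hsw u v)
            rw [this]
          have hO1 : O u v ↔ ((Quot.out s(u, v)) = (u, v) ↔
              g ⟨s(u, v), (SimpleGraph.mem_edgeSet G).2 hadj, hF'⟩) :=
            ⟨fun h => h.2.2 hF', fun h => ⟨hadj, fun h' => absurd h' hF', fun _ => h⟩⟩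
          have hO2 : O v u ↔ ((Quot.out s(u, v)) = (v, u) ↔
              g ⟨s(u, v), (SimpleGraph.mem_edgeSet G).2 hadj, hF'⟩) := by
            have h1 : O v u ↔ ((Quot.out s(v, u)) = (v, u) ↔
              g ⟨s(v, u), (SimpleGraph.mem_edgeSet G).2 hadj.symm, hF2⟩) :=
              ⟨fun h => h.2.2 hF2, fun h => ⟨hadj.symm, fun h' => absurd h' hF2, fun _ => h⟩⟩
            rw [h1, hgg, hsw]
          have hx : ¬ ((Quot.out s(u, v)) = (u, v) ∧ (Quot.out s(u, v)) = (v, u)) := by
            rintro ⟨h1, h2⟩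
            rw [h1] at h2
            exact hne (congrArg Prod.fst h2)
          have hy : (Quot.out s(u, v)) = (u, v) ∨ (Quot.out s(u, v)) = (v, u) := by
            rcases Sym2.eq_iff.1 (hout s(u, v)) with ⟨h2, h3⟩ | ⟨h2, h3⟩
            · exact Or.inl (Prod.ext h2 h3)
            · exact Or.inr (Prod.ext h2 h3)
          by_cases hg : g ⟨s(u, v), (SimpleGraph.mem_edgeSet G).2 hadj, hF'⟩
          · rcases hy with h | h
            · exact Or.inl ⟨hO1.2 ⟨fun _ => hg, fun _ => h⟩,
                fun h' => hx ⟨h, (hO2.1 h').2 hg⟩⟩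
            · exact Or.inr ⟨hO2.2 ⟨fun _ => hg, fun _ => h⟩,
                fun h' => hx ⟨(hO1.1 h').2 hg, h⟩⟩
          · rcases hy with h | h
            · exact Or.inr ⟨hO2.2 ⟨fun h' => absurd ⟨h, h'⟩ hx, fun h' => absurd h' hg⟩,
                fun h' => hg ((hO1.1 h').1 h)⟩
            · exact Or.inl ⟨hO1.2 ⟨fun h' => absurd ⟨h', h⟩ hx, fun h' => absurd h' hg⟩,
                fun h' => hg ((hO2.1 h').1 h)⟩
      have hOP : ∀ e ∈ P, O e.1 e.2 := by
        intro e he
        have hF' : s(e.1, e.2) ∈ F := ⟨e, he, rfl⟩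
        exact ⟨hP e he, fun _ => he, fun h => absurd hF' h⟩
      refine ⟨⟨O, hOri, hOP⟩, ?_⟩
      funext e
      apply propext
      have hadj : G.Adj (Quot.out e.1).1 (Quot.out e.1).2 := by
        rw [← SimpleGraph.mem_edgeSet, hout]
        exact e.2.1
      have hF' : s((Quot.out e.1).1, (Quot.out e.1).2) ∉ F := by
        rw [hout]
        exact e.2.2
      have he : (⟨s((Quot.out e.1).1, (Quot.out e.1).2), (SimpleGraph.mem_edgeSet G).2 hadj,
          hF'⟩ : ↥(G.edgeSet \ F)) = e := Subtype.ext (hout _)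
      constructor
      · intro h
        have h1 := (h.2.2 hF').1 (by rw [hout])
        rw [he] at h1
        exact h1
      · intro h
        refine ⟨hadj, fun h' => absurd h' hF', fun _ => ?_⟩
        rw [he]
        exact ⟨fun _ => h, fun _ => by rw [hout]⟩
  rw [Nat.card_congr (Equiv.ofBijective Φ hbij), Nat.card_fun, Nat.card_eq_fintype_card,
    Fintype.card_prop]
  congr 1
  rw [Nat.card_coe_set_eq, Set.ncard_diff hFG (Set.toFinite _), hF]

/-- **EG** -/
theorem eg : S_EG := by
  classical
  intro n hn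
  have h0 : (0 : ℕ) < n := by omega
  let a : Fin 3 → Fin n := fun i => ⟨i, by have := i.2; omega⟩
  let b : Fin 3 → Fin n := fun i => ⟨i + 3, by have := i.2; omega⟩
  let T : Set (Sym2 (Fin n)) := Set.range fun i => s(a i, b i)
  have hT : T.ncard = 3 := by
    have hinj : Function.Injective fun i : Fin 3 => s(a i, b i) := by
      intro i j h
      rcases Sym2.eq_iff.1 h with ⟨h1, h2⟩ | ⟨h1, h2⟩
      · have := congrArg Fin.val h1
        exact Fin.ext this
      · have h3 := congrArg Fin.val h1
        have h4 := i.2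
        simp only [a, b] at h3
        omega
    have hT' : T = (fun i : Fin 3 => s(a i, b i)) '' Set.univ := by rw [Set.image_univ]
    rw [hT', Set.ncard_image_of_injective _ hinj, Set.ncard_univ]
    simp
  have hE : (Gst n).edgeSet = (SimpleGraph.turanGraph n 3).edgeSet ∪ T := by
    ext e
    induction e using Sym2.ind with
    | _ u v =>
    rw [Set.mem_union, SimpleGraph.mem_edgeSet, SimpleGraph.mem_edgeSet]
    constructor
    · rintro (h | ⟨h1, h2, h3, h4⟩)
      · exact Or.inl h
      · refine Or.inr ?_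
        have h2' : u.val ≠ v.val := fun h => h2 (Fin.ext h)
        rcases lt_or_gt_of_ne h2' with h | h
        · refine ⟨⟨u.val, by omega⟩, ?_⟩
          apply Sym2.eq_iff.2
          exact Or.inl ⟨Fin.ext rfl, Fin.ext (by simp only [b]; omega)⟩
        · refine ⟨⟨v.val, by omega⟩, ?_⟩
          apply Sym2.eq_iff.2
          exact Or.inr ⟨Fin.ext rfl, Fin.ext (by simp only [b]; omega)⟩
    · rintro (h | ⟨i, hi⟩)
      · exact Or.inl h
      · have h4 := i.2
        rcases Sym2.eq_iff.1 hi with ⟨rfl, rfl⟩ | ⟨rfl, rfl⟩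
        · refine Or.inr ⟨?_, ?_, ?_, ?_⟩
          · simp only [a, b]; omega
          · intro h
            have := congrArg Fin.val h
            simp only [a, b] at this
            omega
          · simp only [a]; omega
          · simp only [b]; omega
        · refine Or.inr ⟨?_, ?_, ?_, ?_⟩
          · simp only [a, b]; omega
          · intro h
            have := congrArg Fin.val h
            simp only [a, b] at this
            omega
          · simp only [b]; omega
          · simp only [a]; omega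
  have hd : Disjoint (SimpleGraph.turanGraph n 3).edgeSet T := by
    rw [Set.disjoint_left]
    rintro e he ⟨i, rfl⟩
    rw [SimpleGraph.mem_edgeSet] at he
    have he' : (a i).val % 3 ≠ (b i).val % 3 := he
    simp only [a, b] at he'
    omega
  have hc : (SimpleGraph.turanGraph n 3).edgeSet.ncard = n ^ 2 / 3 := by
    rw [← SimpleGraph.coe_edgeFinset, Set.ncard_coe_finset, SimpleGraph.card_edgeFinset_turanGraph]
    obtain ⟨q, r, hr, rfl⟩ : ∃ q r, r < 3 ∧ n = 3 * q + r := ⟨n / 3, n % 3, by omega, by omega⟩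
    have h1 : (3 * q + r) % 3 = r := by omega
    rw [h1]
    have h2 : (3 * q + r) ^ 2 = 3 * (3 * q ^ 2 + 2 * q * r) + r ^ 2 := by ring
    rw [h2, Nat.add_sub_cancel]
    generalize 3 * q ^ 2 + 2 * q * r = m
    interval_cases r <;> simp [Nat.choose] <;> omega
  rw [hE, Set.ncard_union_eq hd (Set.toFinite _) (Set.toFinite _), hc, hT]

end Pool.Agent.N769.OG
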